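import Mathlib
import Pool.Agent.TH108.MBMain

/-! Which just infinite branch groups are minimal (MP_53c676_al). -/

set_option autoImplicit false

universe u

namespace Pool.Agent.Results.MP_53c676_al.MinimalIffPowers

open Pool.Agent.TH108.MB

/-- A just infinite branch group `G` is minimal if and only if it is commensurable with a proper
direct power `G ^ c`, `c ≥ 2`, of itself. It is enough that two different powers `G ^ a`, `G ^ b`
are commensurable, or that `G ⪰ G × G`, or that the rigid stabilizer of some vertex other than the
root is at least as large as `G`, or that some powers `RiSt(u) ^ i`, `RiSt(v) ^ j` of rigid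
stabilizers are commensurable although `i / |level of u| ≠ j / |level of v|`; and if `G` is minimal,
then each rigid stabilizer is commensurable with a proper direct power of itself and at least as
large as `G`. -/
theorem result {k : ℕ → ℕ} (hk : ∀ n, 2 ≤ k n) {G : Type u} [Group G] (A : TreeAction k G)
    (hB : A.Branch) (hJ : JustInfinite G) :
    List.TFAE [
      IsMinimal G,
      ∃ c : ℕ, 2 ≤ c ∧ Commensurable G (Fin c → G),
      ∃ a b : ℕ, 0 < a ∧ a < b ∧ Commensurable (Fin a → G) (Fin b → G),
      Larger G (G × G),
      ∀ v : Vertex k, Larger (A.rist v) G,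
      ∃ v : Vertex k, 0 < v.1 ∧ Larger (A.rist v) G,
      ∀ v : Vertex k, ∃ c : ℕ, 2 ≤ c ∧ Commensurable (A.rist v) (Fin c → A.rist v),
      ∃ (u v : Vertex k) (i j : ℕ), Commensurable (Fin i → A.rist u) (Fin j → A.rist v) ∧
        i * Nat.card (Word k v.1) ≠ j * Nat.card (Word k u.1)] :=
  A.main hk hB hJ

end Pool.Agent.Results.MP_53c676_al.MinimalIffPowers
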